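import Pool.Agent.Helper24.GM.R2of
import Pool.Agent.Helper18.GM.C1

/-!
# GM-C4: a family of sectors at height `U`
-/

open MeasureTheory Real Set Filter Topology

set_option autoImplicit false

namespace Pool.Agent.Helper60.GM

open Pool.Agent.Helper22.AE
open Pool.Agent.Helper92.GC (dt tp Tq uu tt arc dd sqa m6)
open Pool.Agent.Helper92.DT (m12 IsMul12)
open Pool.Agent.Helper60.LT (Fr Tf xf yf df vf fr ac co Cut BB PP)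
open Pool.Agent.Helper60.QL (nm Cone)
open Pool.Agent.Helper60.RT (R2 cn FR sp Pr prs ctr lf2 ln2 Dec12)

theorem r2G {ε B₀ B β : ℝ} (hε : 0 < ε) (hB₀ : 1 ≤ B₀) (hB : 1 ≤ B) (hβ : 1 ≤ β) : ∃ C : ℝ, 1 ≤ C ∧
    ∀ (F : Fam), F.Ok B₀ → ∀ (ι : Type) (P : Finset ι) (I : ι → Finset (ℤ × ℤ)) (n : ι → ℤ × ℤ) (X U σ s₀ l : ℝ) (N : ℕ), 1 ≤ X → 1 ≤ N → (N : ℝ) ≤ X → 1 ≤ U → 0 < σ → σ ≤ β → In s₀ l →
      (∀ p ∈ P, Pr (n p) ∧ U ≤ β * (n p).1 ∧ ((n p).1 : ℝ) ≤ β * U ∧ |sp (n p)| ≤ 3 ∧ ∀ s ∈ Icc (s₀ - l) (s₀ + l), σ ≤ |F.J s (sp (n p))|) →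
      (∀ p ∈ P, Cut β (I p) ∧ I p ⊆ cn N ∧ ∀ k ∈ I p, ((n p).1 : ℝ) ^ 2 * |tt 0 k - sp (n p)| ≤ 2 ∧ |tt 0 k - sp (n p)| ^ 4 * (X * N) ≤ β) →
      (∀ v : ℤ × ℤ, ((P.filter (fun p => n p = v)).card : ℝ) ≤ β) →
        ∑ p ∈ P, RN F s₀ l B X (I p) ≤ ENNReal.ofReal (C * (X * N) ^ ε * (X / (σ * l)) * U ^ (-(10 : ℝ)) * BB N (X * N)) :=
  r2G_of @to_stateG hε hB₀ hB hβ

end Pool.Agent.Helper60.GM
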