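import Pool.Agent.Helper60.GM.Defs
import Pool.Agent.Helper93.GM.C2
import Pool.Agent.Helper3.RT.C3

/-!
# GM-C4: a family of sectors at height `U`, from the block C1
-/

open MeasureTheory Real Set Filter Topology

set_option autoImplicit false

namespace Pool.Agent.Helper60.GM

open Pool.Agent.Helper22.AE
open Pool.Agent.Helper92.GC (dt tp Tq uu tt arc dd sqa m6)
open Pool.Agent.Helper92.DT (m12 IsMul12 m12_nonneg)
open Pool.Agent.Helper60.LT (Fr Tf xf yf df vf fr ac co Cut BB PP PP_meas PP_shear fr_meas m12_le_card)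
open Pool.Agent.Helper60.QL (nm Cone)
open Pool.Agent.Helper60.RT (R2 cn FR sp Pr prs ctr lf2 ln2 Dec12 model)

/-- the statement of C1 -/
def StC1G : Prop := ∀ {B₀ B β : ℝ} (_ : 1 ≤ B₀) (_ : 1 ≤ B) (_ : 1 ≤ β), ∃ C L K₀ : ℝ, 1 ≤ C ∧ 1 ≤ L ∧ 1 ≤ K₀ ∧
    ∀ (F : Fam), F.Ok B₀ → ∀ (X U S y r s : ℝ) (N : ℕ) (n : ℤ × ℤ) (I : Finset (ℤ × ℤ)), 1 ≤ X → 1 ≤ N → K₀ ≤ X * N → 1 ≤ U → 0 < S → S ≤ 3 → Pr n → |sp n| ≤ 3 → U ≤ β * n.1 → (n.1 : ℝ) ≤ β * U →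
      Cut β I → I ⊆ cn N → (∀ k ∈ I, (n.1 : ℝ) ^ 2 * |tt 0 k - sp n| ≤ 9 / 10 * S) → (∀ k ∈ I, |tt 0 k - sp n| ^ 4 * (X * N) ≤ β) →
      s ∈ Icc (-1 : ℝ) 2 → r ∈ Icc (X / B) (B * X) → y ∈ Icc (1 / (β * U ^ 2)) (β / U ^ 2) →
        ENNReal.ofReal (mf F I r s) ≤ ENNReal.ofReal C * PP nm L S (X * N) (fr 0 y (r * yG F n s / y ^ 2) (xG F n s))

/-- the integral over the heights -/
noncomputable def GG24 (β L S K U Y x : ℝ) : ENNReal :=
  ∫⁻ y in Icc (1 / (β * U ^ 2)) (β / U ^ 2), PP nm L S K (fr 0 y (Y / y ^ 2) x)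

private theorem nm_cont24 : Continuous nm := by
  unfold nm
  fun_prop

private theorem GG24_meas (β L S K U : ℝ) : Measurable (fun q : ℝ × ℝ => GG24 β L S K U q.1 q.2) := by
  have h1 : Measurable (fun q : (ℝ × ℝ) × ℝ => ((0 : ℝ), q.2, q.1.1 / q.2 ^ 2, q.1.2)) := by fun_prop
  have h2 : Measurable (fun q : (ℝ × ℝ) × ℝ => fr 0 q.2 (q.1.1 / q.2 ^ 2) q.1.2) := fr_meas.comp h1
  have h3 : Measurable (fun q : (ℝ × ℝ) × ℝ => PP nm L S K (fr 0 q.2 (q.1.1 / q.2 ^ 2) q.1.2)) := (PP_meas nm_cont24 L S K).comp h2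
  exact h3.lintegral_prod_right'

private theorem PP_add_one24 {L S K : ℝ} (hL : 0 < L) (hK : 0 < K) (hS : 0 ≤ S) (y T x : ℝ) :
    PP nm L S K (fr 0 y T (x + 1)) = PP nm L S K (fr 0 y T x) := by
  by_cases hT : T = 0
  · have e : fr 0 y T (x + 1) = fr 0 y T x := by
      rw [hT]
      unfold fr
      simp only [zero_mul]
    rw [e]
  · have h1 : 0 < Tf (fr 0 y T x) := by
      unfold Tf fr
      refine Real.sqrt_pos.2 ?_
      simp only [Real.cos_zero, Real.sin_zero, mul_one, mul_zero]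
      positivity
    have e : fr 0 y T (x + 1) = ((fr 0 y T x).1, ((fr 0 y T x).2.1 + (fr 0 y T x).1.1, (fr 0 y T x).2.2 + (fr 0 y T x).1.2)) := by
      unfold fr
      refine Prod.ext rfl (Prod.ext ?_ ?_)
      · simp only
        ring
      · simp only
        ring
    rw [e, PP_shear hL hK hS _ h1]

private theorem cut_mono24 {β β' : ℝ} (h : β ≤ β') {I : Finset (ℤ × ℤ)} (hI : Cut β I) : Cut β' I := by
  intro S hS
  obtain ⟨h1, h2⟩ := hI S hS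
  refine ⟨h1.trans h, fun a => (h2 a).trans ?_⟩
  have := m12_nonneg S a
  have h3 : β ^ 12 ≤ β' ^ 12 := pow_le_pow_left₀ h1 h 12
  gcongr

/-- one sector -/
private theorem one24 {F : Fam} {B β C L S K U X s₀ l : ℝ} {I : Finset (ℤ × ℤ)} {n : ℤ × ℤ} (hβ : 2 ≤ β) (hC : 1 ≤ C) (hU : 1 ≤ U)
    (h : ∀ s ∈ Icc (s₀ - l) (s₀ + l), ∀ r ∈ Icc (X / B) (B * X), ∀ y ∈ Icc (1 / (β * U ^ 2)) (β / U ^ 2),
      ENNReal.ofReal (mf F I r s) ≤ ENNReal.ofReal C * PP nm L S K (fr 0 y (r * yG F n s / y ^ 2) (xG F n s))) :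
    RN F s₀ l B X I ≤ ENNReal.ofReal l⁻¹ * (ENNReal.ofReal (C * U ^ 2) *
      ∫⁻ s in Icc (s₀ - l) (s₀ + l), ∫⁻ r in Icc (X / B) (B * X), GG24 β L S K U (r * yG F n s) (xG F n s)) := by
  unfold RN
  refine mul_le_mul_right ?_ _
  rw [← lintegral_const_mul' _ _ ENNReal.ofReal_ne_top]
  refine setLIntegral_mono' measurableSet_Icc fun s hs => ?_
  rw [← lintegral_const_mul' _ _ ENNReal.ofReal_ne_top]
  refine setLIntegral_mono' measurableSet_Icc fun r hr => ?_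
  have hU2 : 0 < U ^ 2 := by positivity
  have key : ENNReal.ofReal (mf F I r s) * ENNReal.ofReal (1 / U ^ 2) ≤ ENNReal.ofReal C * GG24 β L S K U (r * yG F n s) (xG F n s) := by
    calc ENNReal.ofReal (mf F I r s) * ENNReal.ofReal (1 / U ^ 2)
        ≤ ENNReal.ofReal (mf F I r s) * volume (Icc (1 / (β * U ^ 2)) (β / U ^ 2)) := by
          refine mul_le_mul_right ?_ _
          rw [Real.volume_Icc]
          refine ENNReal.ofReal_le_ofReal ?_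
          have e1 : 1 / (β * U ^ 2) = 1 / β * (1 / U ^ 2) := by field_simp
          have e2 : β / U ^ 2 = β * (1 / U ^ 2) := by ring
          have e3 : 1 / β ≤ 1 := by
            rw [div_le_one (by linarith)]
            linarith
          have e4 : 0 < 1 / U ^ 2 := by positivity
          rw [e1, e2]
          nlinarith
      _ = ∫⁻ _ in Icc (1 / (β * U ^ 2)) (β / U ^ 2), ENNReal.ofReal (mf F I r s) := (setLIntegral_const _ _).symm
      _ ≤ ∫⁻ y in Icc (1 / (β * U ^ 2)) (β / U ^ 2), ENNReal.ofReal C * PP nm L S K (fr 0 y (r * yG F n s / y ^ 2) (xG F n s)) :=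
          setLIntegral_mono' measurableSet_Icc fun y hy => h s hs r hr y hy
      _ = ENNReal.ofReal C * GG24 β L S K U (r * yG F n s) (xG F n s) := lintegral_const_mul' _ _ ENNReal.ofReal_ne_top
  calc ENNReal.ofReal (mf F I r s)
      = ENNReal.ofReal (U ^ 2) * (ENNReal.ofReal (mf F I r s) * ENNReal.ofReal (1 / U ^ 2)) := by
        rw [mul_comm, mul_assoc, ← ENNReal.ofReal_mul (by positivity), one_div, inv_mul_cancel₀ hU2.ne', ENNReal.ofReal_one, mul_one]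
    _ ≤ ENNReal.ofReal (U ^ 2) * (ENNReal.ofReal C * GG24 β L S K U (r * yG F n s) (xG F n s)) := mul_le_mul_right key _
    _ = _ := by
        rw [← mul_assoc, ← ENNReal.ofReal_mul (by positivity), mul_comm (U ^ 2) C]

private theorem sqa_card24 (N : ℕ) : ((sqa N).card : ℝ) ≤ (4 * N + 1) ^ 2 := by
  have h1 : (sqa N).card ≤ (box (2 * N)).card := by
    unfold sqa
    exact Finset.card_filter_le _ _
  have h2 : (box (2 * N)).card = (4 * N + 1) ^ 2 := by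
    unfold box
    rw [Finset.card_product, Int.card_Icc]
    have h3 : (((2 * N : ℕ) : ℤ) + 1 - -((2 * N : ℕ) : ℤ)).toNat = 4 * N + 1 := by omega
    rw [h3]
    ring
  rw [h2] at h1
  exact_mod_cast h1

private theorem BB_one24 {H G : ℝ} (hH : 1 ≤ H) (hG : 0 < G) : 1 ≤ BB H G := by
  unfold BB
  have h1 : 0 ≤ G ^ (-(3 / 2) : ℝ) := Real.rpow_nonneg hG.le _
  have h2 : 0 ≤ G ^ (-(5 / 2) : ℝ) := Real.rpow_nonneg hG.le _
  have h3 : 1 ≤ H ^ 12 := one_le_pow₀ hH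
  have h4 : 0 ≤ H ^ 18 * G ^ (-(3 / 2) : ℝ) := by positivity
  have h5 : 0 ≤ H ^ 22 * G ^ (-(5 / 2) : ℝ) := by positivity
  linarith

private theorem mf_le24 (F : Fam) (I : Finset (ℤ × ℤ)) (r s : ℝ) : mf F I r s ≤ (I.card : ℝ) ^ 11 :=
  m12_le_card I fun _ _ => (ee_norm _).le

/-- the trivial bound -/
private theorem RN_triv24 (F : Fam) {s₀ l B X Q : ℝ} (hl : 0 < l) (hB : 1 ≤ B) (hX : 0 < X) {I : Finset (ℤ × ℤ)} (hI : (I.card : ℝ) ^ 11 ≤ Q) :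
    RN F s₀ l B X I ≤ ENNReal.ofReal (2 * (B * X) * Q) := by
  have hB0 : 0 < B := by linarith
  have hQ : 0 ≤ Q := le_trans (by positivity) hI
  unfold RN
  calc ENNReal.ofReal l⁻¹ * ∫⁻ s in Icc (s₀ - l) (s₀ + l), ∫⁻ r in Icc (X / B) (B * X), ENNReal.ofReal (mf F I r s)
      ≤ ENNReal.ofReal l⁻¹ * ∫⁻ _ in Icc (s₀ - l) (s₀ + l), ∫⁻ _ in Icc (X / B) (B * X), ENNReal.ofReal Q :=
        mul_le_mul_right (lintegral_mono fun s => lintegral_mono fun r => ENNReal.ofReal_le_ofReal ((mf_le24 F I r s).trans hI)) _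
    _ = ENNReal.ofReal l⁻¹ * (ENNReal.ofReal Q * volume (Icc (X / B) (B * X)) * volume (Icc (s₀ - l) (s₀ + l))) := by
        rw [setLIntegral_const, setLIntegral_const]
    _ ≤ ENNReal.ofReal l⁻¹ * (ENNReal.ofReal Q * ENNReal.ofReal (B * X) * ENNReal.ofReal (2 * l)) := by
        rw [Real.volume_Icc, Real.volume_Icc]
        have h1 : 0 < X / B := by positivity
        gcongr
        · linarith
        · linarith
    _ = _ := by
        rw [← ENNReal.ofReal_mul hQ, ← ENNReal.ofReal_mul (by positivity), ← ENNReal.ofReal_mul (by positivity)]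
        congr 1
        field_simp

private theorem RN_empty24 (F : Fam) (s₀ l B X : ℝ) : RN F s₀ l B X ∅ = 0 := by
  have h : ∀ r s, mf F ∅ r s ≤ 0 := by
    intro r s
    have := mf_le24 F ∅ r s
    simpa using this
  have h1 : ∀ r s, ENNReal.ofReal (mf F ∅ r s) = 0 := fun r s => ENNReal.ofReal_of_nonpos (h r s)
  unfold RN
  simp only [h1, lintegral_zero, mul_zero]

private theorem cn_sub24 (N : ℕ) : cn N ⊆ sqa N := by
  unfold cn
  exact Finset.filter_subset _ _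

/-- the height of `n` is bounded if the sector is not empty -/
private theorem n_le24 {N : ℕ} {n : ℤ × ℤ} {k : ℤ × ℤ} (hn : Pr n) (hk : k ∈ cn N) (h : (n.1 : ℝ) ^ 2 * |tt 0 k - sp n| ≤ 2) :
    (n.1 : ℝ) ≤ 4 * N := by
  unfold cn at hk
  rw [Finset.mem_filter] at hk
  obtain ⟨hk1, hk2, hk3⟩ := hk
  unfold sqa at hk1
  rw [Finset.mem_filter] at hk1
  obtain ⟨-, -, hk4, -⟩ := hk1
  have hk0 : 0 < k.1 := by omega
  have hk5 : k.1 < 2 * N := lt_of_le_of_lt (le_abs_self _) hk4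
  have hk5' : (k.1 : ℝ) < 2 * N := by exact_mod_cast hk5
  have hk0' : (0 : ℝ) < k.1 := by exact_mod_cast hk0
  have hn0 : (0 : ℝ) < n.1 := by exact_mod_cast hn.2
  have htt : tt 0 k = (k.2 : ℝ) / k.1 := by
    unfold tt uu
    rw [zero_mul, add_zero]
  by_cases hd : k.2 * n.1 - n.2 * k.1 = 0
  · have h1 : n.1 ∣ n.2 * k.1 := ⟨k.2, by linarith⟩
    have h2 : n.1 ∣ k.1 := hn.1.dvd_of_dvd_mul_left h1
    have h3 : n.1 ≤ k.1 := Int.le_of_dvd hk0 h2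
    have h4 : (n.1 : ℝ) ≤ k.1 := by exact_mod_cast h3
    have : (0 : ℝ) ≤ N := Nat.cast_nonneg _
    linarith
  · have h1 : (1 : ℝ) ≤ |(k.2 : ℝ) * n.1 - n.2 * k.1| := by
      have : 1 ≤ |k.2 * n.1 - n.2 * k.1| := Int.one_le_abs hd
      exact_mod_cast this
    have h2 : tt 0 k - sp n = ((k.2 : ℝ) * n.1 - n.2 * k.1) / (k.1 * n.1) := by
      rw [htt]
      unfold sp
      rw [div_sub_div _ _ hk0'.ne' hn0.ne']
      ring
    rw [h2, abs_div, abs_of_pos (show (0 : ℝ) < k.1 * n.1 by positivity), ← mul_div_assoc, div_le_iff₀ (by positivity)] at h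
    have h3 : (n.1 : ℝ) * n.1 ≤ 2 * k.1 * n.1 := by
      calc (n.1 : ℝ) * n.1 = (n.1 : ℝ) ^ 2 * 1 := by ring
        _ ≤ (n.1 : ℝ) ^ 2 * |(k.2 : ℝ) * n.1 - n.2 * k.1| := by gcongr
        _ ≤ 2 * (k.1 * n.1) := h
        _ = _ := by ring
    have h4 : (n.1 : ℝ) ≤ 2 * k.1 := le_of_mul_le_mul_right h3 hn0
    linarith

private theorem card_le24 {ι : Type} {P : Finset ι} {n : ι → ℤ × ℤ} {β : ℝ}
    (hm : ∀ v : ℤ × ℤ, ((P.filter (fun p => n p = v)).card : ℝ) ≤ β) (F : ℤ × ℤ → ENNReal) :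
    ∑ p ∈ P, F (n p) ≤ ENNReal.ofReal β * ∑ v ∈ P.image n, F v := by
  rw [Finset.sum_comp, Finset.mul_sum]
  refine Finset.sum_le_sum fun v _ => ?_
  rw [nsmul_eq_mul]
  refine mul_le_mul_left ?_ _
  rw [← ENNReal.ofReal_natCast]
  exact ENNReal.ofReal_le_ofReal (hm v)

private theorem rpow10_24 {U : ℝ} (hU : 0 < U) : U ^ (-(10 : ℝ)) = (U ^ 10)⁻¹ := by
  rw [Real.rpow_neg hU.le]
  congr 1
  exact_mod_cast Real.rpow_natCast U 10

private theorem rpow17_24 {U : ℝ} (hU : 0 < U) : U ^ (-(17 : ℝ)) = (U ^ 17)⁻¹ := by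
  rw [Real.rpow_neg hU.le]
  congr 1
  exact_mod_cast Real.rpow_natCast U 17

/-- small `X N` -/
private theorem small24 {ε B₀ B β K₁ : ℝ} (hε : 0 < ε) (hB : 1 ≤ B) (hβ : 1 ≤ β) (hK₁ : 1 ≤ K₁) : ∃ C : ℝ, 1 ≤ C ∧
    ∀ (F : Fam), F.Ok B₀ → ∀ (ι : Type) (P : Finset ι) (I : ι → Finset (ℤ × ℤ)) (n : ι → ℤ × ℤ) (X U σ s₀ l : ℝ) (N : ℕ), 1 ≤ X → 1 ≤ N → (N : ℝ) ≤ X → 1 ≤ U → 0 < σ → σ ≤ β → In s₀ l →
      (∀ p ∈ P, Pr (n p) ∧ U ≤ β * (n p).1 ∧ ((n p).1 : ℝ) ≤ β * U ∧ |sp (n p)| ≤ 3 ∧ ∀ s ∈ Icc (s₀ - l) (s₀ + l), σ ≤ |F.J s (sp (n p))|) →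
      (∀ p ∈ P, Cut β (I p) ∧ I p ⊆ cn N ∧ ∀ k ∈ I p, ((n p).1 : ℝ) ^ 2 * |tt 0 k - sp (n p)| ≤ 2 ∧ |tt 0 k - sp (n p)| ^ 4 * (X * N) ≤ β) →
      (∀ v : ℤ × ℤ, ((P.filter (fun p => n p = v)).card : ℝ) ≤ β) → X * N ≤ K₁ →
        ∑ p ∈ P, RN F s₀ l B X (I p) ≤ ENNReal.ofReal (C * (X * N) ^ ε * (X / (σ * l)) * U ^ (-(10 : ℝ)) * BB N (X * N)) := by
  have hB0 : 0 < B := by linarith
  have hβ0 : 0 < β := by linarith
  obtain ⟨V, hV⟩ : ∃ V, V = 4 * β * K₁ := ⟨_, rfl⟩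
  obtain ⟨Q, hQ⟩ : ∃ Q, Q = ((4 * K₁ + 1) ^ 2) ^ 11 := ⟨_, rfl⟩
  obtain ⟨M, hM⟩ : ∃ M : ℕ, M = ⌈3 * β * V⌉₊ := ⟨_, rfl⟩
  have hV1 : 1 ≤ V := by
    rw [hV]
    calc (1 : ℝ) = 1 * 1 * 1 := by norm_num
      _ ≤ 4 * β * K₁ := by gcongr; norm_num
  have hQ1 : 1 ≤ Q := by
    rw [hQ, ← pow_mul]
    exact one_le_pow₀ (by linarith)
  have hM0 : (0 : ℝ) ≤ M := Nat.cast_nonneg _
  have hM1 : (1 : ℝ) ≤ (2 * M + 1) ^ 2 := one_le_pow₀ (by linarith)
  obtain ⟨C, hC⟩ : ∃ C, C = β * (2 * M + 1) ^ 2 * (2 * B * Q) * (2 * β * V ^ 10) := ⟨_, rfl⟩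
  refine ⟨C, ?_, ?_⟩
  · rw [hC]
    have h1 : 1 ≤ V ^ 10 := one_le_pow₀ hV1
    calc (1 : ℝ) = 1 * 1 * (1 * 1 * 1) * (1 * 1 * 1) := by norm_num
      _ ≤ _ := by gcongr <;> norm_num
  intro F hF ι P I n X U σ s₀ l N hX hN hNX hU hσ hσβ hin hn hI hm hK
  have hl : 0 < l := hin.1
  have hl2 : l ≤ 2 := by
    have := hin.2.1
    have := hin.2.2
    linarith
  have hN1 : (1 : ℝ) ≤ N := by exact_mod_cast hN
  have hX0 : 0 < X := by linarith
  have hU0 : 0 < U := by linarith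
  have hK1 : 1 ≤ X * N := by
    calc (1 : ℝ) = 1 * 1 := by norm_num
      _ ≤ X * N := by gcongr
  have hNK : (N : ℝ) ≤ K₁ := by
    calc (N : ℝ) = 1 * N := (one_mul _).symm
      _ ≤ X * N := by gcongr
      _ ≤ K₁ := hK
  by_cases hall : ∀ p ∈ P, I p = ∅
  · have : ∑ p ∈ P, RN F s₀ l B X (I p) = 0 := Finset.sum_eq_zero fun p hp => by rw [hall p hp, RN_empty24]
    rw [this]
    exact zero_le
  push Not at hall
  obtain ⟨p₀, hp₀, hne⟩ := hall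
  obtain ⟨k₀, hk₀⟩ := hne
  have hUV : U ≤ V := by
    have h1 := n_le24 (hn p₀ hp₀).1 ((hI p₀ hp₀).2.1 hk₀) ((hI p₀ hp₀).2.2 k₀ hk₀).1
    rw [hV]
    calc U ≤ β * (n p₀).1 := (hn p₀ hp₀).2.1
      _ ≤ β * (4 * N) := by gcongr
      _ ≤ β * (4 * K₁) := by gcongr
      _ = _ := by ring
  have hcard : (P.card : ℝ) ≤ β * (2 * M + 1) ^ 2 := by
    have h1 : P.image n ⊆ box M := by
      intro v hv
      obtain ⟨p, hp, rfl⟩ := Finset.mem_image.1 hv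
      obtain ⟨g1, -, g3, g4, -⟩ := hn p hp
      have hp0 : (0 : ℝ) < (n p).1 := by exact_mod_cast g1.2
      have hc : 3 * β * V ≤ M := by
        rw [hM]
        exact Nat.le_ceil _
      have hbv : 0 ≤ β * V := by positivity
      have g5 : ((n p).1 : ℝ) ≤ β * V := g3.trans (by gcongr)
      have e1 : |((n p).1 : ℝ)| ≤ M := by
        rw [abs_of_pos hp0]
        linarith
      have e2 : |((n p).2 : ℝ)| ≤ M := by
        have h5 : |((n p).2 : ℝ)| = |sp (n p)| * (n p).1 := by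
          unfold sp
          rw [abs_div, abs_of_pos hp0]
          field_simp
        rw [h5]
        calc |sp (n p)| * (n p).1 ≤ 3 * (β * V) := by gcongr
          _ = 3 * β * V := by ring
          _ ≤ M := hc
      have e1' : |(n p).1| ≤ (M : ℤ) := by exact_mod_cast e1
      have e2' : |(n p).2| ≤ (M : ℤ) := by exact_mod_cast e2
      rw [abs_le] at e1' e2'
      unfold box
      rw [Finset.mem_product, Finset.mem_Icc, Finset.mem_Icc]
      exact ⟨e1', e2'⟩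
    have h2 : (box M).card = (2 * M + 1) ^ 2 := by
      unfold box
      rw [Finset.card_product, Int.card_Icc]
      have h3 : ((M : ℤ) + 1 - -(M : ℤ)).toNat = 2 * M + 1 := by omega
      rw [h3]
      ring
    have h3 : ((P.image n).card : ℝ) ≤ (2 * M + 1) ^ 2 := by
      have := Finset.card_le_card h1
      rw [h2] at this
      exact_mod_cast this
    have h4 : (P.card : ℝ) = ∑ v ∈ P.image n, ((P.filter (fun p => n p = v)).card : ℝ) := by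
      have := Finset.card_eq_sum_card_image n P
      rw [this]
      push_cast
      rfl
    rw [h4]
    calc ∑ v ∈ P.image n, ((P.filter (fun p => n p = v)).card : ℝ) ≤ ∑ v ∈ P.image n, β := Finset.sum_le_sum fun v _ => hm v
      _ = β * (P.image n).card := by rw [Finset.sum_const, nsmul_eq_mul, mul_comm]
      _ ≤ _ := by gcongr
  calc ∑ p ∈ P, RN F s₀ l B X (I p) ≤ ∑ p ∈ P, ENNReal.ofReal (2 * (B * X) * Q) := by
        refine Finset.sum_le_sum fun p hp => RN_triv24 F hl hB hX0 ?_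
        have h1 : ((I p).card : ℝ) ≤ (4 * N + 1) ^ 2 := by
          have h2 : (I p).card ≤ (sqa N).card := Finset.card_le_card ((hI p hp).2.1.trans (cn_sub24 N))
          have h3 : ((I p).card : ℝ) ≤ ((sqa N).card : ℝ) := by exact_mod_cast h2
          exact h3.trans (sqa_card24 N)
        rw [hQ]
        refine pow_le_pow_left₀ (by positivity) (h1.trans ?_) 11
        gcongr
    _ = ENNReal.ofReal (P.card * (2 * (B * X) * Q)) := by
        rw [Finset.sum_const, nsmul_eq_mul, ← ENNReal.ofReal_natCast, ← ENNReal.ofReal_mul (by positivity)]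
    _ ≤ _ := by
        refine ENNReal.ofReal_le_ofReal ?_
        have hKε : 1 ≤ (X * N) ^ ε := Real.one_le_rpow hK1 hε.le
        have hBB : 1 ≤ BB N (X * N) := BB_one24 hN1 (by linarith)
        have h1 : U ^ 10 ≤ V ^ 10 := pow_le_pow_left₀ hU0.le hUV 10
        have h2 : 1 ≤ 2 * β * V ^ 10 * (1 / (σ * l) * (U ^ 10)⁻¹) := by
          have e1 : 2 * β * V ^ 10 * (1 / (σ * l) * (U ^ 10)⁻¹) = (β / σ) * (2 / l) * (V ^ 10 / U ^ 10) := by
            field_simp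
          rw [e1]
          have e2 : 1 ≤ β / σ := by rwa [one_le_div hσ]
          have e4 : 1 ≤ 2 / l := by rwa [one_le_div hl]
          have e3 : 1 ≤ V ^ 10 / U ^ 10 := by rwa [one_le_div (by positivity)]
          calc (1 : ℝ) = 1 * 1 * 1 := by norm_num
            _ ≤ _ := by gcongr
        rw [rpow10_24 hU0]
        calc (P.card : ℝ) * (2 * (B * X) * Q) ≤ β * (2 * M + 1) ^ 2 * (2 * (B * X) * Q) := by gcongr
          _ = β * (2 * M + 1) ^ 2 * (2 * B * Q) * X * 1 * 1 * 1 := by ring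
          _ ≤ β * (2 * M + 1) ^ 2 * (2 * B * Q) * X * (2 * β * V ^ 10 * (1 / (σ * l) * (U ^ 10)⁻¹)) * (X * N) ^ ε * BB N (X * N) := by
              gcongr
          _ = C * (X * N) ^ ε * (X / (σ * l)) * (U ^ 10)⁻¹ * BB N (X * N) := by
              rw [hC]
              ring

/-- C4 from C1 -/
theorem r2G_of (h1 : StC1G) {ε B₀ B β : ℝ} (hε : 0 < ε) (hB₀ : 1 ≤ B₀) (hB : 1 ≤ B) (hβ : 1 ≤ β) : ∃ C : ℝ, 1 ≤ C ∧
    ∀ (F : Fam), F.Ok B₀ → ∀ (ι : Type) (P : Finset ι) (I : ι → Finset (ℤ × ℤ)) (n : ι → ℤ × ℤ) (X U σ s₀ l : ℝ) (N : ℕ), 1 ≤ X → 1 ≤ N → (N : ℝ) ≤ X → 1 ≤ U → 0 < σ → σ ≤ β → In s₀ l →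
      (∀ p ∈ P, Pr (n p) ∧ U ≤ β * (n p).1 ∧ ((n p).1 : ℝ) ≤ β * U ∧ |sp (n p)| ≤ 3 ∧ ∀ s ∈ Icc (s₀ - l) (s₀ + l), σ ≤ |F.J s (sp (n p))|) →
      (∀ p ∈ P, Cut β (I p) ∧ I p ⊆ cn N ∧ ∀ k ∈ I p, ((n p).1 : ℝ) ^ 2 * |tt 0 k - sp (n p)| ≤ 2 ∧ |tt 0 k - sp (n p)| ^ 4 * (X * N) ≤ β) →
      (∀ v : ℤ × ℤ, ((P.filter (fun p => n p = v)).card : ℝ) ≤ β) →
        ∑ p ∈ P, RN F s₀ l B X (I p) ≤ ENNReal.ofReal (C * (X * N) ^ ε * (X / (σ * l)) * U ^ (-(10 : ℝ)) * BB N (X * N)) := by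
  obtain ⟨β', hβ'⟩ : ∃ β', β' = β + 1 := ⟨_, rfl⟩
  have hβ2 : 2 ≤ β' := by linarith
  have hββ : β ≤ β' := by linarith
  have hβ1 : 1 ≤ β' := by linarith
  have hβ0 : 0 < β' := by linarith
  obtain ⟨C₁, L, K₀, hC₁, hL, hK₀, hst⟩ := h1 hB₀ hB hβ1
  obtain ⟨C₂, hC₂, hps⟩ := push_sumG hB₀ hB hβ1
  obtain ⟨β₃, hβ₃⟩ : ∃ β₃, β₃ = β' + C₂ := ⟨_, rfl⟩
  have hβ₃1 : 1 ≤ β₃ := by linarith
  obtain ⟨s₁, hs₁, hs₁1, hmod⟩ := model (ε := ε) (β := β₃) (L := L) hε hβ₃1 hL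
  obtain ⟨C₃, hC₃, hmod⟩ := hmod s₁ hs₁
  obtain ⟨K₂, hK₂⟩ : ∃ K₂, K₂ = β' * (β' ^ 2 * 3 / (9 / 10 * s₁ ^ 2)) ^ 4 := ⟨_, rfl⟩
  have hK₂0 : 0 ≤ K₂ := by
    rw [hK₂]
    positivity
  obtain ⟨C₄, hC₄, hsm⟩ := small24 (B₀ := B₀) hε hB hβ (K₁ := K₀ + K₂) (by linarith)
  refine ⟨C₄ + C₁ * β * C₂ * C₃, ?_, ?_⟩
  · have : 0 ≤ C₁ * β * C₂ * C₃ := by positivity
    linarith
  intro F hF ι P I n X U σ s₀ l N hX hN hNX hU hσ hσβ hin hn hI hm
  have hl : 0 < l := hin.1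
  have hN1 : (1 : ℝ) ≤ N := by exact_mod_cast hN
  have hX0 : 0 < X := by linarith
  have hU0 : 0 < U := by linarith
  have hK0 : 0 < X * N := by positivity
  have hBB : 1 ≤ BB N (X * N) := BB_one24 hN1 hK0
  have hKε : 0 < (X * N) ^ ε := Real.rpow_pos_of_pos hK0 _
  have hR0 : 0 ≤ (X * N) ^ ε * (X / (σ * l)) * U ^ (-(10 : ℝ)) * BB N (X * N) := by
    have : 0 < U ^ (-(10 : ℝ)) := Real.rpow_pos_of_pos hU0 _
    positivity
  by_cases hsmall : X * N ≤ K₀ + K₂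
  · refine (hsm F hF ι P I n X U σ s₀ l N hX hN hNX hU hσ hσβ hin hn hI hm hsmall).trans (ENNReal.ofReal_le_ofReal ?_)
    have h5 : 0 ≤ C₁ * β * C₂ * C₃ := by positivity
    have h6 := mul_nonneg h5 hR0
    calc C₄ * (X * N) ^ ε * (X / (σ * l)) * U ^ (-(10 : ℝ)) * BB N (X * N)
        ≤ C₄ * (X * N) ^ ε * (X / (σ * l)) * U ^ (-(10 : ℝ)) * BB N (X * N) +
          C₁ * β * C₂ * C₃ * ((X * N) ^ ε * (X / (σ * l)) * U ^ (-(10 : ℝ)) * BB N (X * N)) := by linarith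
      _ = _ := by ring
  push Not at hsmall
  -- the choice of `S`
  obtain ⟨S, hS0, hS1, hS3, hSU, hSI⟩ : ∃ S : ℝ, 0 < S ∧ s₁ ≤ S ∧ S ≤ 3 ∧ S ≤ s₁ * U ^ 2 ∧
      ∀ p ∈ P, ∀ k ∈ I p, ((n p).1 : ℝ) ^ 2 * |tt 0 k - sp (n p)| ≤ 9 / 10 * S := by
    by_cases hbig : 3 ≤ s₁ * U ^ 2
    · refine ⟨3, by norm_num, by linarith, le_refl _, hbig, fun p hp k hk => ?_⟩
      have := ((hI p hp).2.2 k hk).1
      linarith
    · push Not at hbig
      refine ⟨s₁, hs₁, le_refl _, by linarith, ?_, fun p hp k hk => ?_⟩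
      · have : (1 : ℝ) ≤ U ^ 2 := one_le_pow₀ hU
        calc s₁ = s₁ * 1 := (mul_one _).symm
          _ ≤ s₁ * U ^ 2 := by gcongr
      · have g1 := ((hI p hp).2.2 k hk).2
        obtain ⟨-, -, g2, -, -⟩ := hn p hp
        have hp0 : (0 : ℝ) < (n p).1 := by exact_mod_cast (hn p hp).1.2
        obtain ⟨d, hd⟩ : ∃ d, d = |tt 0 k - sp (n p)| := ⟨_, rfl⟩
        have hd0 : 0 ≤ d := by
          rw [hd]
          exact abs_nonneg _
        rw [← hd] at g1 ⊢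
        have hU2 : U ^ 2 ≤ 3 / s₁ := by
          rw [le_div_iff₀ hs₁]
          linarith
        have hn2 : ((n p).1 : ℝ) ^ 2 ≤ β' ^ 2 * (3 / s₁) := by
          calc ((n p).1 : ℝ) ^ 2 ≤ (β * U) ^ 2 := pow_le_pow_left₀ hp0.le g2 2
            _ = β ^ 2 * U ^ 2 := by ring
            _ ≤ β' ^ 2 * (3 / s₁) := by gcongr
        obtain ⟨T, hT⟩ : ∃ T, T = β' ^ 2 * 3 / (9 / 10 * s₁ ^ 2) := ⟨_, rfl⟩
        have hT0 : 0 < T := by
          rw [hT]
          positivity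
        have hdT : d ≤ 1 / T := by
          by_contra hcon
          push Not at hcon
          have e1 : (1 / T) ^ 4 < d ^ 4 := pow_lt_pow_left₀ hcon (by positivity) (by norm_num)
          have e2 : K₂ < X * N := by linarith
          have e3 : (1 / T) ^ 4 * K₂ = β' := by
            rw [hK₂, ← hT]
            field_simp
          have e4 : β' ≤ β := by
            calc β' = (1 / T) ^ 4 * K₂ := e3.symm
              _ ≤ (1 / T) ^ 4 * (X * N) := by gcongr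
              _ ≤ d ^ 4 * (X * N) := by gcongr
              _ ≤ β := g1
          linarith
        calc ((n p).1 : ℝ) ^ 2 * d ≤ β' ^ 2 * (3 / s₁) * (1 / T) := by gcongr
          _ = 9 / 10 * s₁ := by
              rw [hT]
              field_simp
  -- the sum over the sectors
  obtain ⟨Z, hZ⟩ : ∃ Z : ℤ × ℤ → ENNReal, Z = fun v => ∫⁻ s in Icc (s₀ - l) (s₀ + l), ∫⁻ r in Icc (X / B) (B * X),
      GG24 β' L S (X * N) U (r * yG F v s) (xG F v s) := ⟨_, rfl⟩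
  have hone : ∀ p ∈ P, RN F s₀ l B X (I p) ≤ ENNReal.ofReal l⁻¹ * (ENNReal.ofReal (C₁ * U ^ 2) * Z (n p)) := by
    intro p hp
    rw [hZ]
    refine one24 hβ2 hC₁ hU fun s hs r hr y hy => ?_
    obtain ⟨g1, g2, g3, g4, g5⟩ := hn p hp
    have hp0 : (0 : ℝ) < (n p).1 := by exact_mod_cast g1.2
    refine hst F hF X U S y r s N (n p) (I p) hX hN (by linarith) hU hS0 hS3 g1 g4 ?_ ?_ (cut_mono24 hββ (hI p hp).1) (hI p hp).2.1
      (hSI p hp) (fun k hk => (((hI p hp).2.2 k hk).2).trans hββ) ⟨hin.2.1.trans hs.1, hs.2.trans hin.2.2⟩ hr hy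
    · exact g2.trans (by gcongr)
    · exact g3.trans (by gcongr)
  have hps' := hps F hF U σ X s₀ l (P.image n) (fun Y x => GG24 β' L S (X * N) U Y x) hU hσ hX0 hin (fun v hv => by
      obtain ⟨p, hp, rfl⟩ := Finset.mem_image.1 hv
      obtain ⟨g1, g2, g3, g4, g5⟩ := hn p hp
      have hp0 : (0 : ℝ) < (n p).1 := by exact_mod_cast g1.2
      exact ⟨g1, g2.trans (by gcongr), g3.trans (by gcongr), g4, g5⟩)
    (GG24_meas β' L S (X * N) U) (fun Y x => by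
      unfold GG24
      refine lintegral_congr fun y => ?_
      exact PP_add_one24 (by linarith) hK0 hS0.le _ _ _)
  have hmod' := hmod X N U S hX hN1 hU hS1 hS3 hSU
  have hU3 : 0 < U ^ 3 := by positivity
  have hU2 : 0 < U ^ 2 := by positivity
  have hC₂0 : 0 < C₂ := by linarith
  have hinner : ∫⁻ x in Ico (0 : ℝ) 1, ∫⁻ Y in Icc (X / (C₂ * U ^ 3)) (C₂ * X / U ^ 3), GG24 β' L S (X * N) U Y x ≤
      ENNReal.ofReal (C₃ * (X * N) ^ ε * X * U ^ (-(17 : ℝ)) * BB N (X * N)) := by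
    refine le_trans (lintegral_mono fun x => ?_) hmod'
    refine le_trans (lintegral_mono_set (Icc_subset_Icc ?_ ?_)) (lintegral_mono fun Y => ?_)
    · have : C₂ * U ^ 3 ≤ β₃ * U ^ 3 := by
        have : C₂ ≤ β₃ := by linarith
        gcongr
      exact div_le_div_of_nonneg_left hX0.le (by positivity) this
    · have : C₂ ≤ β₃ := by linarith
      gcongr
    · unfold GG24
      refine lintegral_mono_set (Icc_subset_Icc ?_ ?_)
      · have : β' * U ^ 2 ≤ β₃ * U ^ 2 := by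
          have : β' ≤ β₃ := by linarith
          gcongr
        exact div_le_div_of_nonneg_left zero_le_one (by positivity) this
      · have : β' ≤ β₃ := by linarith
        gcongr
  calc ∑ p ∈ P, RN F s₀ l B X (I p) ≤ ∑ p ∈ P, ENNReal.ofReal l⁻¹ * (ENNReal.ofReal (C₁ * U ^ 2) * Z (n p)) := Finset.sum_le_sum hone
    _ = ENNReal.ofReal l⁻¹ * (ENNReal.ofReal (C₁ * U ^ 2) * ∑ p ∈ P, Z (n p)) := by rw [Finset.mul_sum, Finset.mul_sum]
    _ ≤ ENNReal.ofReal l⁻¹ * (ENNReal.ofReal (C₁ * U ^ 2) * (ENNReal.ofReal β * ∑ v ∈ P.image n, Z v)) :=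
        mul_le_mul_right (mul_le_mul_right (card_le24 hm Z) _) _
    _ ≤ ENNReal.ofReal l⁻¹ * (ENNReal.ofReal (C₁ * U ^ 2) * (ENNReal.ofReal β * (ENNReal.ofReal (C₂ * U ^ 5 / σ) *
          ENNReal.ofReal (C₃ * (X * N) ^ ε * X * U ^ (-(17 : ℝ)) * BB N (X * N))))) := by
        refine mul_le_mul_right (mul_le_mul_right (mul_le_mul_right ?_ _) _) _
        rw [hZ]
        exact hps'.trans (mul_le_mul_right hinner _)
    _ = ENNReal.ofReal (C₁ * β * C₂ * C₃ * ((X * N) ^ ε * (X / (σ * l)) * U ^ (-(10 : ℝ)) * BB N (X * N))) := by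
        have h17 : 0 < U ^ (-(17 : ℝ)) := Real.rpow_pos_of_pos hU0 _
        rw [← ENNReal.ofReal_mul (by positivity), ← ENNReal.ofReal_mul (by positivity), ← ENNReal.ofReal_mul (by positivity),
          ← ENNReal.ofReal_mul (by positivity)]
        congr 1
        rw [rpow10_24 hU0, rpow17_24 hU0]
        field_simp
    _ ≤ _ := by
        refine ENNReal.ofReal_le_ofReal ?_
        have h6 := mul_nonneg (show 0 ≤ C₄ by linarith) hR0
        calc C₁ * β * C₂ * C₃ * ((X * N) ^ ε * (X / (σ * l)) * U ^ (-(10 : ℝ)) * BB N (X * N))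
            ≤ C₁ * β * C₂ * C₃ * ((X * N) ^ ε * (X / (σ * l)) * U ^ (-(10 : ℝ)) * BB N (X * N)) +
              C₄ * ((X * N) ^ ε * (X / (σ * l)) * U ^ (-(10 : ℝ)) * BB N (X * N)) := by linarith
          _ = _ := by ring

end Pool.Agent.Helper60.GM
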